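import Pool.Agent.SSF.StmtsC

set_option autoImplicit false

open Set Topology

namespace Pool.Agent.SSF.H54

open Pool.Agent.LSG Pool.Agent.LPR Pool.Agent.SSF

open Classical in
/-- extension by zero -/
noncomputable def ex {X Y : Type} (A : Set X) (π : Y → X × OnePoint ℕ)
    (F : ↥A × OnePoint ℕ → ℝ) (y : Y) : ℝ :=
  if h : (π y).1 ∈ A then F (⟨(π y).1, h⟩, (π y).2) else 0

theorem ex_pos {X Y : Type} (A : Set X) (π : Y → X × OnePoint ℕ) (F : ↥A × OnePoint ℕ → ℝ) (y : Y)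
    (h : (π y).1 ∈ A) : ex A π F y = F (⟨(π y).1, h⟩, (π y).2) := dif_pos h

theorem ex_neg {X Y : Type} (A : Set X) (π : Y → X × OnePoint ℕ) (F : ↥A × OnePoint ℕ → ℝ) (y : Y)
    (h : (π y).1 ∉ A) : ex A π F y = 0 := dif_neg h

theorem ex_cont {X Y : Type} [TopologicalSpace X] [TopologicalSpace Y] {A : Set X}
    (hA : IsClosed A) {π : Y → X × OnePoint ℕ} (hπ : Continuous π) {D : Set Y} (hD : IsClosed D)
    (hc : ∀ y, (π y).1 ∈ A ∨ y ∈ D) {F : ↥A × OnePoint ℕ → ℝ} (hF : Continuous F)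
    (h0 : ∀ y ∈ D, ∀ h : (π y).1 ∈ A, F (⟨(π y).1, h⟩, (π y).2) = 0) :
    Continuous (ex A π F) := by
  have c1 : Continuous (fun y : Y => (π y).1) := continuous_fst.comp hπ
  have c2 : Continuous (fun y : Y => (π y).2) := continuous_snd.comp hπ
  have hC1 : IsClosed {y : Y | (π y).1 ∈ A} := hA.preimage c1
  have hu : {y : Y | (π y).1 ∈ A} ∪ D = univ := by
    ext y
    exact ⟨fun _ => trivial, fun _ => hc y⟩
  rw [← continuousOn_univ, ← hu]
  refine ContinuousOn.union_of_isClosed ?_ ?_ hC1 hD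
  · rw [continuousOn_iff_continuous_domRestrict]
    have : ({y : Y | (π y).1 ∈ A}).domRestrict (ex A π F) =
        fun z => F (⟨(π z.1).1, z.2⟩, (π z.1).2) := by
      funext z
      exact ex_pos A π F z.1 z.2
    rw [this]
    refine hF.comp (Continuous.prodMk ?_ (c2.comp continuous_subtype_val))
    exact Continuous.subtype_mk (c1.comp continuous_subtype_val) _
  · have h1 : ∀ y ∈ D, ex A π F y = (fun _ => (0 : ℝ)) y := by
      intro y hy
      by_cases h : (π y).1 ∈ A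
      · rw [ex_pos A π F y h]
        exact h0 y hy h
      · exact ex_neg A π F y h
    exact continuousOn_const.congr h1

theorem ex_add {X Y : Type} (A : Set X) (π : Y → X × OnePoint ℕ) (F G : ↥A × OnePoint ℕ → ℝ)
    (y : Y) : ex A π (F + G) y = ex A π F y + ex A π G y := by
  by_cases h : (π y).1 ∈ A
  · rw [ex_pos A π _ y h, ex_pos A π _ y h, ex_pos A π _ y h]
    rfl
  · rw [ex_neg A π _ y h, ex_neg A π _ y h, ex_neg A π _ y h, add_zero]

theorem ex_smul {X Y : Type} (A : Set X) (π : Y → X × OnePoint ℕ) (c : ℝ)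
    (F : ↥A × OnePoint ℕ → ℝ) (y : Y) : ex A π (c • F) y = c * ex A π F y := by
  by_cases h : (π y).1 ∈ A
  · rw [ex_pos A π _ y h, ex_pos A π _ y h]
    rfl
  · rw [ex_neg A π _ y h, ex_neg A π _ y h, mul_zero]

theorem ex_pt {X Y : Type} (A : Set X) (π : Y → X × OnePoint ℕ)
    (W : Submodule ℝ (↥A × OnePoint ℕ → ℝ)) (y : Y) :
    Continuous (fun F : ↥W => ex A π F.1 y) := by
  by_cases h : (π y).1 ∈ A
  · have : (fun F : ↥W => ex A π F.1 y) = fun F : ↥W => F.1 (⟨(π y).1, h⟩, (π y).2) := by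
      funext F
      exact ex_pos A π F.1 y h
    rw [this]
    exact (continuous_apply _).comp continuous_subtype_val
  · have : (fun F : ↥W => ex A π F.1 y) = fun _ => 0 := by
      funext F
      exact ex_neg A π F.1 y h
    rw [this]
    exact continuous_const

theorem hsg (hDug : DugStmt) : HsgStmt := by
  intro X _ _ A B hA hB hAB O hO
  let C : Set (X × OnePoint ℕ) := {y | y.1 ∈ A ∨ (y.1 ∉ O ∨ y.2 = OnePoint.infty)}
  have hcD : IsClosed {y : X × OnePoint ℕ | y.1 ∉ O ∨ y.2 = OnePoint.infty} :=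
    (hO.isClosed_compl.preimage continuous_fst).union
      ((isClosed_singleton (x := (OnePoint.infty : OnePoint ℕ))).preimage continuous_snd)
  have hcC : IsClosed C := (hA.preimage continuous_fst).union hcD
  obtain ⟨φ, hφ⟩ := hDug (X × OnePoint ℕ) C hcC
  -- the extension of a function on `A`
  have cA : ∀ F : ↥(Sg (Subtype.val ⁻¹' O : Set ↥A)),
      Continuous (ex A (fun y : ↥C => y.1) F.1) := by
    intro F
    refine ex_cont hA continuous_subtype_val (hcD.preimage continuous_subtype_val)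
      (fun y => y.2) F.2.1 ?_
    intro y hy h
    rcases hy with hy | hy
    · exact F.2.2.1 ⟨y.1.1, h⟩ hy _
    · have hy' : y.1.2 = OnePoint.infty := hy
      show F.1 (⟨y.1.1, h⟩, y.1.2) = 0
      rw [hy']
      exact F.2.2.2 _
  let exA : ↥(Sg (Subtype.val ⁻¹' O : Set ↥A)) →L[ℝ] ↥(Cp ↥C) :=
    { toFun := fun F => ⟨ex A (fun y : ↥C => y.1) F.1, cA F⟩
      map_add' := fun F G => Subtype.ext (funext fun y => ex_add A _ F.1 G.1 y)
      map_smul' := fun c F => Subtype.ext (funext fun y => ex_smul A _ c F.1 y)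
      cont := Continuous.subtype_mk (continuous_pi fun y => ex_pt A _ _ y) _ }
  let E : ↥(Sg (Subtype.val ⁻¹' O : Set ↥A)) →L[ℝ] ↥(Cp (X × OnePoint ℕ)) := φ.comp exA
  have hE : ∀ (F : ↥(Sg (Subtype.val ⁻¹' O : Set ↥A))) (y : ↥C),
      (E F).1 y.1 = ex A (fun y : ↥C => y.1) F.1 y := fun F y => hφ _ y
  have hEA : ∀ (F : ↥(Sg (Subtype.val ⁻¹' O : Set ↥A))) (x : X) (h : x ∈ A) (n : OnePoint ℕ),
      (E F).1 (x, n) = F.1 (⟨x, h⟩, n) := by
    intro F x h n
    have h1 := hE F ⟨(x, n), Or.inl h⟩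
    exact h1.trans (ex_pos A (fun y : ↥C => y.1) F.1 ⟨(x, n), Or.inl h⟩ h)
  have hE0 : ∀ (F : ↥(Sg (Subtype.val ⁻¹' O : Set ↥A))) (x : X) (n : OnePoint ℕ),
      (x ∉ O ∨ n = OnePoint.infty) → (E F).1 (x, n) = 0 := by
    intro F x n hx
    by_cases h : x ∈ A
    · rw [hEA F x h n]
      rcases hx with hx | hx
      · exact F.2.2.1 ⟨x, h⟩ hx _
      · rw [hx]
        exact F.2.2.2 _
    · have h1 := hE F ⟨(x, n), Or.inr hx⟩
      exact h1.trans (ex_neg A (fun y : ↥C => y.1) F.1 ⟨(x, n), Or.inr hx⟩ h)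
  -- the restriction to `A`
  let rA : ↥(Sg O) →L[ℝ] ↥(Sg (Subtype.val ⁻¹' O : Set ↥A)) :=
    { toFun := fun f => ⟨fun y => f.1 (y.1.1, y.2),
        f.2.1.comp (Continuous.prodMk (continuous_subtype_val.comp continuous_fst) continuous_snd),
        fun x hx n => f.2.2.1 x.1 hx n, fun x => f.2.2.2 x.1⟩
      map_add' := fun f g => rfl
      map_smul' := fun c f => rfl
      cont := by
        refine Continuous.subtype_mk
          (f := fun f : ↥(Sg O) => fun y : ↥A × OnePoint ℕ => f.1 (y.1.1, y.2))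
          (continuous_pi fun y => ?_) _
        exact (continuous_apply (y.1.1, y.2)).comp continuous_subtype_val }
  -- the second component
  have cB : ∀ f : ↥(Sg O), (fun y : ↥B × OnePoint ℕ => f.1 (y.1.1, y.2) -
      (E (rA f)).1 (y.1.1, y.2)) ∈ Sg (Subtype.val ⁻¹' (O \ A) : Set ↥B) := by
    intro f
    have hc : Continuous (fun y : ↥B × OnePoint ℕ => ((y.1.1, y.2) : X × OnePoint ℕ)) :=
      Continuous.prodMk (continuous_subtype_val.comp continuous_fst) continuous_snd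
    refine ⟨(f.2.1.comp hc).sub (((E (rA f)).2 : Continuous (E (rA f)).1).comp hc), ?_, ?_⟩
    · intro x hx n
      show f.1 (x.1, n) - (E (rA f)).1 (x.1, n) = 0
      by_cases h : x.1 ∈ A
      · rw [hEA _ x.1 h n]
        show f.1 (x.1, n) - f.1 (x.1, n) = 0
        exact sub_self _
      · have hx' : x.1 ∉ O := fun ho => hx ⟨ho, h⟩
        rw [hE0 _ x.1 n (Or.inl hx'), f.2.2.1 x.1 hx' n, sub_zero]
    · intro x
      show f.1 (x.1, OnePoint.infty) - (E (rA f)).1 (x.1, OnePoint.infty) = 0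
      rw [hE0 _ x.1 _ (Or.inr rfl), f.2.2.2 x.1, sub_zero]
  let sB : ↥(Sg O) →L[ℝ] ↥(Sg (Subtype.val ⁻¹' (O \ A) : Set ↥B)) :=
    { toFun := fun f => ⟨fun y => f.1 (y.1.1, y.2) - (E (rA f)).1 (y.1.1, y.2), cB f⟩
      map_add' := fun f g => Subtype.ext (funext fun y => by
        show (f + g).1 (y.1.1, y.2) - (E (rA (f + g))).1 (y.1.1, y.2) =
          (f.1 (y.1.1, y.2) - (E (rA f)).1 (y.1.1, y.2)) +
            (g.1 (y.1.1, y.2) - (E (rA g)).1 (y.1.1, y.2))
        rw [map_add, map_add]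
        show (f.1 (y.1.1, y.2) + g.1 (y.1.1, y.2)) -
          ((E (rA f)).1 (y.1.1, y.2) + (E (rA g)).1 (y.1.1, y.2)) = _
        ring)
      map_smul' := fun c f => Subtype.ext (funext fun y => by
        show (c • f).1 (y.1.1, y.2) - (E (rA (c • f))).1 (y.1.1, y.2) =
          c * (f.1 (y.1.1, y.2) - (E (rA f)).1 (y.1.1, y.2))
        rw [map_smul, map_smul]
        show c * f.1 (y.1.1, y.2) - c * (E (rA f)).1 (y.1.1, y.2) = _
        ring)
      cont := by
        refine Continuous.subtype_mk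
          (f := fun f : ↥(Sg O) => fun y : ↥B × OnePoint ℕ => f.1 (y.1.1, y.2) -
            (E (rA f)).1 (y.1.1, y.2)) (continuous_pi fun y => ?_) _
        have h1 : Continuous (fun f : ↥(Sg O) => f.1 (y.1.1, y.2)) :=
          (continuous_apply (y.1.1, y.2)).comp continuous_subtype_val
        have h2 : Continuous (fun f : ↥(Sg O) => (E (rA f)).1 (y.1.1, y.2)) :=
          (continuous_apply (y.1.1, y.2)).comp (continuous_subtype_val.comp
            (E.continuous.comp rA.continuous))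
        exact h1.sub h2 }
  -- the extension of the second component by 0
  have hz : ∀ G : ↥(Sg (Subtype.val ⁻¹' (O \ A) : Set ↥B)),
      Continuous (ex B (fun y : X × OnePoint ℕ => y) G.1) := by
    intro G
    refine ex_cont hB continuous_id (hA.preimage continuous_fst : IsClosed
      {y : X × OnePoint ℕ | y.1 ∈ A}) ?_ G.2.1 ?_
    · intro y
      have : y.1 ∈ A ∪ B := by rw [hAB]; trivial
      exact this.symm
    · intro y hy h
      exact G.2.2.1 ⟨y.1, h⟩ (fun hh => hh.2 hy) _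
  let zB : ↥(Sg (Subtype.val ⁻¹' (O \ A) : Set ↥B)) →L[ℝ] ↥(Cp (X × OnePoint ℕ)) :=
    { toFun := fun G => ⟨ex B (fun y : X × OnePoint ℕ => y) G.1, hz G⟩
      map_add' := fun F G => Subtype.ext (funext fun y =>
        ex_add B (fun y : X × OnePoint ℕ => y) F.1 G.1 y)
      map_smul' := fun c F => Subtype.ext (funext fun y =>
        ex_smul B (fun y : X × OnePoint ℕ => y) c F.1 y)
      cont := Continuous.subtype_mk (continuous_pi fun y => ex_pt B _ _ y) _ }
  have hzB : ∀ (G : ↥(Sg (Subtype.val ⁻¹' (O \ A) : Set ↥B))) (x : X) (h : x ∈ B)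
      (n : OnePoint ℕ), (zB G).1 (x, n) = G.1 (⟨x, h⟩, n) := fun G x h n =>
    ex_pos B (fun y : X × OnePoint ℕ => y) G.1 (x, n) h
  have hzN : ∀ (G : ↥(Sg (Subtype.val ⁻¹' (O \ A) : Set ↥B))) (x : X) (_ : x ∉ B)
      (n : OnePoint ℕ), (zB G).1 (x, n) = 0 := fun G x h n =>
    ex_neg B (fun y : X × OnePoint ℕ => y) G.1 (x, n) h
  let S : (↥(Sg (Subtype.val ⁻¹' O : Set ↥A)) × ↥(Sg (Subtype.val ⁻¹' (O \ A) : Set ↥B)))
      →L[ℝ] ↥(Cp (X × OnePoint ℕ)) :=
    (E.comp (ContinuousLinearMap.fst ℝ _ _)) + (zB.comp (ContinuousLinearMap.snd ℝ _ _))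
  have hS : ∀ (q : ↥(Sg (Subtype.val ⁻¹' O : Set ↥A)) ×
      ↥(Sg (Subtype.val ⁻¹' (O \ A) : Set ↥B))) (y : X × OnePoint ℕ),
      (S q).1 y = (E q.1).1 y + (zB q.2).1 y := fun q y => rfl
  have hSO : ∀ q, (S q).1 ∈ Sg O := by
    intro q
    refine ⟨(S q).2, ?_, ?_⟩
    · intro x hx n
      rw [hS, hE0 _ x n (Or.inl hx)]
      by_cases h : x ∈ B
      · rw [hzB _ x h n, q.2.2.2.1 ⟨x, h⟩ (fun hh => hx hh.1) n, add_zero]
      · rw [hzN _ x h n, add_zero]
    · intro x
      rw [hS, hE0 _ x _ (Or.inr rfl)]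
      by_cases h : x ∈ B
      · rw [hzB _ x h _, q.2.2.2.2 ⟨x, h⟩, add_zero]
      · rw [hzN _ x h _, add_zero]
  let p : (↥(Sg (Subtype.val ⁻¹' O : Set ↥A)) × ↥(Sg (Subtype.val ⁻¹' (O \ A) : Set ↥B)))
      →L[ℝ] ↥(Sg O) :=
    { toFun := fun q => ⟨(S q).1, hSO q⟩
      map_add' := fun F G => Subtype.ext (by
        show (S (F + G)).1 = (S F).1 + (S G).1
        rw [map_add]
        rfl)
      map_smul' := fun c F => Subtype.ext (by
        show (S (c • F)).1 = c • (S F).1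
        rw [map_smul]
        rfl)
      cont := Continuous.subtype_mk (continuous_subtype_val.comp S.continuous) _ }
  refine ⟨rA.prod sB, p, fun F => Subtype.ext (funext fun y => ?_)⟩
  obtain ⟨x, n⟩ := y
  show (E (rA F)).1 (x, n) + (zB (sB F)).1 (x, n) = F.1 (x, n)
  by_cases h : x ∈ B
  · rw [hzB _ x h n]
    show (E (rA F)).1 (x, n) + (F.1 (x, n) - (E (rA F)).1 (x, n)) = F.1 (x, n)
    ring
  · have hxA : x ∈ A := by
      have : x ∈ A ∪ B := by rw [hAB]; trivial
      rcases this with h' | h'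
      · exact h'
      · exact absurd h' h
    rw [hzN _ x h n, hEA _ x hxA n, add_zero]
    rfl

end Pool.Agent.SSF.H54
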